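import Pool.Agent.W711.HT.Geo

/-!
# Volumes at a hinge (subtask HT-HV)
-/

set_option autoImplicit false

namespace Pool.Agent.W816.HT

open Pool.Agent.W711.HT
open Pool.Agent.W709.VC (Dv S_DSYM)
open scoped Real

lemma exp_ne_neg_one (z : ℂ) (h : |z.re| < π) : Complex.exp (Complex.I * z) ≠ -1 := by
  intro h1
  have h2 : Complex.exp (Complex.I * z) = Complex.exp (π * Complex.I) := by
    rw [Complex.exp_pi_mul_I]; exact h1
  obtain ⟨n, hn⟩ := Complex.exp_eq_exp_iff_exists_int.1 h2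
  have him := congrArg Complex.im hn
  have hre : z.re = π + n * (2 * π) := by
    simpa using him
  rw [hre] at h
  have hpi := Real.pi_pos
  rw [abs_lt] at h
  rcases le_or_gt 0 n with h0 | h0
  · have : (0 : ℝ) ≤ n := by exact_mod_cast h0
    nlinarith [h.1, h.2]
  · have : (n : ℝ) ≤ -1 := by exact_mod_cast (by omega : n ≤ -1)
    nlinarith [h.1, h.2]

lemma exp_ne_one (z : ℂ) (h0 : 0 < z.re) (h1 : z.re < 2 * π) :
    Complex.exp (Complex.I * z) ≠ 1 := by
  intro h
  obtain ⟨n, hn⟩ := Complex.exp_eq_one_iff.1 h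
  have him := congrArg Complex.im hn
  have hre : z.re = n * (2 * π) := by
    simpa using him
  have hpi := Real.pi_pos
  rw [hre] at h0 h1
  rcases le_or_gt 1 n with h2 | h2
  · have : (1 : ℝ) ≤ n := by exact_mod_cast h2
    nlinarith
  · have : (n : ℝ) ≤ 0 := by exact_mod_cast (by omega : n ≤ 0)
    nlinarith

lemma exp_ne_one' (z : ℂ) (h0 : z ≠ 0) (h1 : ‖z‖ ≤ 1 / 10) :
    Complex.exp (Complex.I * z) ≠ 1 := by
  intro h
  obtain ⟨n, hn⟩ := Complex.exp_eq_one_iff.1 h
  have hpi := Real.pi_gt_three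
  have hz : z = n * (2 * π) := by
    have : Complex.I * z = Complex.I * (n * (2 * π)) := by rw [hn]; ring
    exact mul_left_cancel₀ Complex.I_ne_zero this
  have hn0 : n ≠ 0 := by
    rintro rfl
    exact h0 (by simpa using hz)
  have hre : z.re = n * (2 * π) := by rw [hz]; simp
  have h2 : |z.re| ≤ 1 / 10 := (Complex.abs_re_le_norm z).trans h1
  rw [hre, abs_le] at h2
  rcases lt_or_gt_of_ne hn0 with h3 | h3
  · have : (n : ℝ) ≤ -1 := by exact_mod_cast (by omega : n ≤ -1)
    nlinarith [h2.1, h2.2]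
  · have : (1 : ℝ) ≤ n := by exact_mod_cast (by omega : 1 ≤ n)
    nlinarith [h2.1, h2.2]

/-- facts on one small angle -/
lemma small_facts (z : ℂ) (h1 : ‖z‖ ≤ 1 / 10) :
    Complex.exp (Complex.I * z) ≠ -1 ∧ ‖Complex.cos z - 1‖ ≤ 1 / 5 := by
  have hz1 : ‖Complex.I * z‖ ≤ 1 / 10 := by simpa using h1
  have hz2 : ‖-(Complex.I * z)‖ ≤ 1 / 10 := by rw [norm_neg]; exact hz1
  have e1 : ‖Complex.exp (Complex.I * z) - 1‖ ≤ 1 / 5 := by
    have := Complex.norm_exp_sub_one_le (x := Complex.I * z) (by linarith)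
    linarith
  have e2 : ‖Complex.exp (-(Complex.I * z)) - 1‖ ≤ 1 / 5 := by
    have := Complex.norm_exp_sub_one_le (x := -(Complex.I * z)) (by linarith)
    linarith
  refine ⟨?_, ?_⟩
  · intro h
    rw [h] at e1
    norm_num at e1
  · have : Complex.cos z - 1 = ((Complex.exp (Complex.I * z) - 1) +
        (Complex.exp (-(Complex.I * z)) - 1)) / 2 := by
      rw [Complex.cos]
      rw [show z * Complex.I = Complex.I * z by ring, show -z * Complex.I = -(Complex.I * z) by ring]
      ring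
    rw [this, norm_div]
    have := norm_add_le (Complex.exp (Complex.I * z) - 1) (Complex.exp (-(Complex.I * z)) - 1)
    simp only [Complex.norm_ofNat]
    linarith

lemma HH_inv (X G : ℂ) (hG : G ≠ 0) (hX : X ≠ 0) (hG1 : G ≠ 1) (hG2 : 1 + G ≠ 0)
    (hXG : 1 + X * G ≠ 0) :
    HH G⁻¹ ((X + G) / (1 + X * G)) =
      Dv (-((1 - X) * G / (X * (1 + G)))) + Dv (X * (1 + G) / (1 + X * G)) := by
  have h1 : G - 1 ≠ 0 := sub_ne_zero.2 hG1
  have h1' : 1 - G ≠ 0 := sub_ne_zero.2 hG1.symm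
  have e1 : 1 - (X + G) / (1 + X * G) = (1 - X) * (1 - G) / (1 + X * G) := by
    field_simp; ring
  have e2 : 1 - G⁻¹ * ((X + G) / (1 + X * G)) = X * (G - 1) * (1 + G) / (G * (1 + X * G)) := by
    rw [inv_mul_eq_div, div_div, mul_comm (1 + X * G) G, eq_div_iff (mul_ne_zero hG hXG), sub_mul,
      div_mul_cancel₀ _ (mul_ne_zero hG hXG)]
    ring
  have e3 : 1 - G⁻¹ = (G - 1) / G := by field_simp
  unfold HH
  rw [e1, e2, e3]
  congr 2
  · rw [show 1 - G = -(G - 1) by ring]
    field_simp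
  · field_simp

lemma HH_self (X G : ℂ) (hG1 : G ≠ 1) (hG2 : 1 + G ≠ 0) (hXG : 1 + X * G ≠ 0) :
    HH G ((X + G) / (1 + X * G)) =
      Dv ((1 - X) / (1 + G)) + Dv ((1 + G) / (1 + X * G)) := by
  have h1' : 1 - G ≠ 0 := sub_ne_zero.2 hG1.symm
  have e1 : 1 - (X + G) / (1 + X * G) = (1 - X) * (1 - G) / (1 + X * G) := by
    field_simp; ring
  have e2 : 1 - G * ((X + G) / (1 + X * G)) = (1 - G) * (1 + G) / (1 + X * G) := by
    rw [mul_div_assoc', eq_div_iff hXG, sub_mul, div_mul_cancel₀ _ hXG]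
    ring
  unfold HH
  rw [e1, e2]
  congr 2
  · field_simp
  · field_simp

lemma HP_symm {ψ ψ' u : ℂ} (h : HP ψ ψ' u) : HP ψ' ψ u where
  ne := h.ne'
  ne' := h.ne
  sm := h.sm'
  sm' := h.sm
  un := h.un
  eq := by
    rw [h.eq, mul_comm (Complex.cos ψ) (Complex.cos ψ'), add_assoc, add_assoc,
      add_comm (Complex.cos ψ) (Complex.cos ψ')]

lemma cos_eq (z : ℂ) : 1 + Complex.cos z =
    (1 + Complex.exp (Complex.I * z)) ^ 2 / (2 * Complex.exp (Complex.I * z)) := by
  rw [Complex.cos]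
  rw [show z * Complex.I = Complex.I * z by ring, show -z * Complex.I = -(Complex.I * z) by ring,
    Complex.exp_neg]
  have := Complex.exp_ne_zero (Complex.I * z)
  field_simp
  ring

lemma one_sub_cos_eq (z : ℂ) : 1 - Complex.cos z =
    -((1 - Complex.exp (Complex.I * z)) ^ 2 / (2 * Complex.exp (Complex.I * z))) := by
  rw [Complex.cos]
  rw [show z * Complex.I = Complex.I * z by ring, show -z * Complex.I = -(Complex.I * z) by ring,
    Complex.exp_neg]
  have := Complex.exp_ne_zero (Complex.I * z)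
  field_simp
  ring

/-- the instance of the hinge identity -/
lemma main_id (hid : S_HID) {ψ ψ' u : ℂ} (hp : HP ψ ψ' u) :
    2 * (Dv (-((1 - Complex.exp (Complex.I * u)) * Complex.exp (Complex.I * ψ) /
        (Complex.exp (Complex.I * u) * (1 + Complex.exp (Complex.I * ψ))))) +
      Dv (Complex.exp (Complex.I * u) * (1 + Complex.exp (Complex.I * ψ)) /
        (1 + Complex.exp (Complex.I * u) * Complex.exp (Complex.I * ψ)))) -
    2 * (Dv ((1 - Complex.exp (Complex.I * u)) / (1 + Complex.exp (Complex.I * ψ'))) +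
      Dv ((1 + Complex.exp (Complex.I * ψ')) /
        (1 + Complex.exp (Complex.I * u) * Complex.exp (Complex.I * ψ')))) +
    2 * Dv (-((1 + Complex.cos ψ') / (1 + Complex.cos ψ))) = hv ψ ψ' u ∧
    Complex.exp (Complex.I * ψ) ≠ 1 ∧ 1 + Complex.exp (Complex.I * ψ) ≠ 0 ∧
    1 + Complex.exp (Complex.I * u) * Complex.exp (Complex.I * ψ) ≠ 0 := by
  have hpi := Real.pi_gt_three
  have hpi4 := Real.pi_le_four
  have hre : |(u - π / 2).re| ≤ π / 8 := (Complex.abs_re_le_norm _).trans hp.un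
  have hre' : (u - π / 2).re = u.re - π / 2 := by
    simp [Complex.sub_re]
  rw [hre', abs_le] at hre
  have hψ : |ψ.re| ≤ 1 / 10 := (Complex.abs_re_le_norm _).trans hp.sm
  have hψ' : |ψ'.re| ≤ 1 / 10 := (Complex.abs_re_le_norm _).trans hp.sm'
  rw [abs_le] at hψ hψ'
  obtain ⟨g1, g2⟩ := small_facts ψ hp.sm
  obtain ⟨k1, k2⟩ := small_facts ψ' hp.sm'
  have gone := exp_ne_one' ψ hp.ne hp.sm
  have x1 := exp_ne_one u (by linarith) (by linarith)
  have ng : ∀ φ : ℂ, -(1 / 10) ≤ φ.re → φ.re ≤ 1 / 10 →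
      Complex.exp (Complex.I * φ) + Complex.exp (Complex.I * u) ≠ 0 ∧
      1 + Complex.exp (Complex.I * u) * Complex.exp (Complex.I * φ) ≠ 0 := by
    intro φ h1 h2
    constructor
    · intro h
      apply exp_ne_neg_one (φ - u)
      · rw [Complex.sub_re, abs_lt]
        constructor <;> linarith
      · rw [mul_sub, Complex.exp_sub, div_eq_iff (Complex.exp_ne_zero _)]
        linear_combination h
    · intro h
      apply exp_ne_neg_one (u + φ)
      · rw [Complex.add_re, abs_lt]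
        constructor <;> linarith
      · rw [mul_add, Complex.exp_add]
        linear_combination h
  obtain ⟨a1, a2⟩ := ng ψ hψ.1 hψ.2
  obtain ⟨b1, b2⟩ := ng ψ' hψ'.1 hψ'.2
  have hG := Complex.exp_ne_zero (Complex.I * ψ)
  have hK := Complex.exp_ne_zero (Complex.I * ψ')
  have hX := Complex.exp_ne_zero (Complex.I * u)
  have hcψ : 1 + Complex.cos ψ ≠ 0 := by
    intro h
    have : Complex.cos ψ - 1 = -2 := by linear_combination h
    rw [this] at g2
    norm_num at g2
  have hcψ' : 1 + Complex.cos ψ' ≠ 0 := by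
    intro h
    have : Complex.cos ψ' - 1 = -2 := by linear_combination h
    rw [this] at k2
    norm_num at k2
  have hsum : 2 + Complex.cos ψ + Complex.cos ψ' ≠ 0 := by
    intro h
    have e : (Complex.cos ψ - 1) + (Complex.cos ψ' - 1) = -4 := by linear_combination h
    have := norm_add_le (Complex.cos ψ - 1) (Complex.cos ψ' - 1)
    rw [e] at this
    norm_num at this
    linarith
  have hg2 : 1 + Complex.exp (Complex.I * ψ) ≠ 0 := by
    intro h; exact g1 (by linear_combination h)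
  have hk2 : 1 + Complex.exp (Complex.I * ψ') ≠ 0 := by
    intro h; exact k1 (by linear_combination h)
  have key : (1 - Complex.cos u) / (1 + Complex.cos ψ) +
      (1 - Complex.cos u) / (1 + Complex.cos ψ') = 1 := by
    rw [hp.eq]
    field_simp
    ring
  have t1 : -((1 - Complex.exp (Complex.I * u)) ^ 2 * Complex.exp (Complex.I * ψ) /
      (Complex.exp (Complex.I * u) * (1 + Complex.exp (Complex.I * ψ)) ^ 2)) =
      (1 - Complex.cos u) / (1 + Complex.cos ψ) := by
    rw [cos_eq ψ, one_sub_cos_eq u]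
    field_simp
  have t2 : -((1 - Complex.exp (Complex.I * u)) ^ 2 * Complex.exp (Complex.I * ψ') /
      (Complex.exp (Complex.I * u) * (1 + Complex.exp (Complex.I * ψ')) ^ 2)) =
      (1 - Complex.cos u) / (1 + Complex.cos ψ') := by
    rw [cos_eq ψ', one_sub_cos_eq u]
    field_simp
  have t3 : (1 + Complex.cos ψ') / (1 + Complex.cos ψ) =
      (1 + Complex.exp (Complex.I * ψ')) ^ 2 * Complex.exp (Complex.I * ψ) /
        (Complex.exp (Complex.I * ψ') * (1 + Complex.exp (Complex.I * ψ)) ^ 2) := by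
    rw [cos_eq ψ', cos_eq ψ]
    field_simp
  have h := hid (Complex.exp (Complex.I * ψ)) (Complex.exp (Complex.I * ψ'))
    (Complex.exp (Complex.I * u)) hG hK hX g1 k1 x1 a1 a2 b1 b2 (by rw [t1, t2]; exact key)
  refine ⟨?_, gone, hg2, a2⟩
  rw [t3, h, hv]
  rw [mul_sub, mul_sub, Complex.exp_sub, Complex.exp_sub, mul_add, mul_add, Complex.exp_neg,
    Complex.exp_neg, Complex.exp_add, Complex.exp_add, one_div, one_div]

theorem hV : S_HID → S_HLOC → S_DSYM → S_HV := by
  intro hid hloc hsym ψ ψ' u hp e he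
  have hp' := HP_symm hp
  obtain ⟨m1, m2, m3, m4⟩ := main_id hid hp
  obtain ⟨n1, n2, n3, n4⟩ := main_id hid hp'
  have hX := Complex.exp_ne_zero (Complex.I * u)
  have w1 := (hloc ψ ψ' u hp).1
  have w2 := (hloc ψ' ψ u hp').1
  rw [w1, w2]
  rcases he with rfl | rfl
  · have e1 : Complex.exp (-(Complex.I * ((1 : ℝ) : ℂ) * ψ)) = (Complex.exp (Complex.I * ψ))⁻¹ := by
      rw [Complex.ofReal_one, mul_one, Complex.exp_neg]
    have e2 : Complex.exp (Complex.I * ((1 : ℝ) : ℂ) * ψ') = Complex.exp (Complex.I * ψ') := by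
      rw [Complex.ofReal_one, mul_one]
    rw [e1, e2, HH_inv _ _ (Complex.exp_ne_zero _) hX m2 m3 m4, HH_self _ _ n2 n3 n4, ← m1]
    ring
  · have e1 : Complex.exp (-(Complex.I * ((-1 : ℝ) : ℂ) * ψ)) = Complex.exp (Complex.I * ψ) := by
      congr 1; push_cast; ring
    have e2 : Complex.exp (Complex.I * ((-1 : ℝ) : ℂ) * ψ') =
        (Complex.exp (Complex.I * ψ'))⁻¹ := by
      rw [← Complex.exp_neg]; congr 1; push_cast; ring
    rw [e1, e2, HH_self _ _ m2 m3 m4, HH_inv _ _ (Complex.exp_ne_zero _) hX n2 n3 n4]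
    have hD : Dv (-((1 + Complex.cos ψ') / (1 + Complex.cos ψ))) =
        -Dv (-((1 + Complex.cos ψ) / (1 + Complex.cos ψ'))) := by
      rw [← hsym.2.2]
      congr 1
      rw [inv_neg, inv_div]
    have hs : hv ψ ψ' u = hv ψ' ψ u := by
      unfold hv; ring
    rw [hD, hs, ← n1]
    ring

end Pool.Agent.W816.HT
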